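import Pool.Agent.H102R3.FR.Stmts

/-! Task Walk of the frog model project. -/

open MeasureTheory ProbabilityTheory Filter Topology
open scoped ENNReal NNReal

namespace Pool.Agent.H102R3.FR

section

variable {V : Type} [Fintype V] [DecidableEq V]

theorem walk_congr (c c' : ℕ × V → V) (v : V) (j : ℕ) (h : ∀ k < j, ∀ x, c (k, x) = c' (k, x)) :
    ∀ k ≤ j, walk c v k = walk c' v k := by
  intro k
  induction k with
  | zero => intro _; rfl
  | succ k ih =>
    intro hk
    change c (k, walk c v k) = c' (k, walk c' v k)
    rw [ih (by omega), h k (by omega)]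

theorem walk_shift (c : ℕ × V → V) (v : V) (k : ℕ) :
    walk c v (k + 1) = walk (fun p => c (p.1 + 1, p.2)) (c (0, v)) k := by
  induction k with
  | zero => rfl
  | succ k ih =>
    change c (k + 1, walk c v (k + 1)) = _
    rw [ih]
    rfl

/-- the event that the walk from `v` with shifted choices stays in `A` -/
def walkE (A : Finset V) (m j : ℕ) (v : V) : Set (ℕ × V → V) :=
  {c | ∀ k ≤ j, walk (fun p => c (m + p.1, p.2)) v k ∈ A}

/-- the coordinates used -/
def walkT (V : Type) [Fintype V] (m j : ℕ) : Finset (ℕ × V) :=
  Finset.Ico m (m + j) ×ˢ (Finset.univ : Finset V)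

theorem walkE_sat (A : Finset V) (m j : ℕ) (v : V) (c c' : ℕ × V → V)
    (h : ∀ p ∈ walkT V m j, c p = c' p) (hc : c ∈ walkE A m j v) : c' ∈ walkE A m j v := by
  intro k hk
  have := walk_congr (fun p : ℕ × V => c (m + p.1, p.2)) (fun p => c' (m + p.1, p.2)) v j
    (fun k hk x => h _ (by simp [walkT]; omega)) k hk
  rw [← this]
  exact hc k hk

theorem walkE_eq (A : Finset V) (m j : ℕ) (v : V) :
    walkE A m j v = (fun (c : ℕ × V → V) (i : walkT V m j) => c i) ⁻¹'
      ((fun (c : ℕ × V → V) (i : walkT V m j) => c i) '' walkE A m j v) := by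
  ext c
  constructor
  · intro hc
    exact ⟨c, hc, rfl⟩
  · rintro ⟨c', hc', h⟩
    exact walkE_sat A m j v c' c (fun p hp => congrFun h ⟨p, hp⟩) hc'

end

variable {V : Type} [Fintype V] [DecidableEq V] [MeasurableSpace V] [DiscreteMeasurableSpace V]
  (G : SimpleGraph V) [DecidableRel G.Adj]

theorem walk_nbr (hd : ∀ x, 0 < G.degree x) (x y : V) :
    nbr G x {y} = if y ∈ G.neighborFinset x then (G.degree x : ℝ≥0∞)⁻¹ else 0 := by
  have h : (G.neighborFinset x).Nonempty := by
    rw [← Finset.card_pos]
    exact hd x
  unfold nbr
  rw [dif_pos h, PMF.toMeasure_apply_singleton _ _ (measurableSet_singleton _),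
    PMF.uniformOfFinset_apply]
  split_ifs <;> rfl

theorem stay_nonneg (A : Finset V) (j : ℕ) (x : V) : 0 ≤ stay G A j x := by
  induction j generalizing x with
  | zero => unfold stay; split_ifs <;> norm_num
  | succ j ih =>
    unfold stay
    split_ifs
    · exact div_nonneg (Finset.sum_nonneg fun y _ => ih y) (Nat.cast_nonneg _)
    · exact le_rfl

theorem walkE_meas (A : Finset V) (m j : ℕ) (v : V) : MeasurableSet (walkE A m j v) := by
  rw [walkE_eq]
  refine MeasurableSet.preimage (MeasurableSet.of_discrete) ?_
  fun_prop

theorem walk_indep (A : Finset V) (m j : ℕ) (v y : V) :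
    stepLaw G ({c | c (m, v) = y} ∩ walkE A (m + 1) j y) =
      stepLaw G {c | c (m, v) = y} * stepLaw G (walkE A (m + 1) j y) := by
  have h1 : iIndepFun (fun (i : ℕ × V) (ω : ℕ × V → V) => ω i) (stepLaw G) :=
    iIndepFun_infinitePi (P := fun j : ℕ × V => nbr G j.2) (X := fun _ ω => ω) (by fun_prop)
  have h2 := h1.indepFun_finset {(m, v)} (walkT V (m + 1) j) (by
    rw [Finset.disjoint_singleton_left]
    simp [walkT]) (fun i => measurable_pi_apply i)
  have h3 := h2.measure_inter_preimage_eq_mul {f | f ⟨(m, v), Finset.mem_singleton_self _⟩ = y}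
    ((fun (c : ℕ × V → V) (i : walkT V (m + 1) j) => c i) '' walkE A (m + 1) j y)
    (MeasurableSet.of_discrete) (MeasurableSet.of_discrete)
  rw [← walkE_eq] at h3
  exact h3

theorem walk_main (hd : ∀ x, 0 < G.degree x) (A : Finset V) (j : ℕ) : ∀ (m : ℕ) (v : V),
    stepLaw G (walkE A m j v) = ENNReal.ofReal (stay G A j v) := by
  induction j with
  | zero =>
    intro m v
    by_cases hv : v ∈ A
    · have : walkE A m 0 v = Set.univ := by
        ext c
        simp [walkE, walk, hv]
      rw [this, measure_univ]
      simp [stay, hv]
    · have : walkE A m 0 v = ∅ := by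
        ext c
        simp [walkE, walk, hv]
      rw [this, measure_empty]
      simp [stay, hv]
  | succ j ih =>
    intro m v
    by_cases hv : v ∈ A
    · have e : walkE A m (j + 1) v =
          ⋃ y ∈ (Finset.univ : Finset V), ({c | c (m, v) = y} ∩ walkE A (m + 1) j y) := by
        ext c
        simp only [Finset.mem_univ, Set.iUnion_true, Set.mem_iUnion, Set.mem_inter_iff,
          Set.mem_setOf_eq, exists_eq_left']
        constructor
        · intro h k hk
          have := h (k + 1) (by omega)
          rw [walk_shift] at this
          have e1 : (fun p : ℕ × V => c (m + 1 + p.1, p.2)) =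
              fun p : ℕ × V => c (m + (p.1 + 1), p.2) := by
            funext p; congr 2; omega
          rw [e1]
          exact this
        · intro h k hk
          cases k with
          | zero => exact hv
          | succ k =>
            have := h k (by omega)
            rw [walk_shift]
            have e1 : (fun p : ℕ × V => c (m + 1 + p.1, p.2)) =
                fun p : ℕ × V => c (m + (p.1 + 1), p.2) := by
              funext p; congr 2; omega
            rw [e1] at this
            exact this
      rw [e, measure_biUnion_finset]
      · have e2 : ∀ y ∈ (Finset.univ : Finset V),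
            stepLaw G ({c | c (m, v) = y} ∩ walkE A (m + 1) j y) =
            if y ∈ G.neighborFinset v then
              (G.degree v : ℝ≥0∞)⁻¹ * ENNReal.ofReal (stay G A j y) else 0 := by
          intro y _
          rw [walk_indep, ih]
          have e3 : stepLaw G {c | c (m, v) = y} = nbr G v {y} := by
            have := (measurePreserving_eval_infinitePi (fun j : ℕ × V => nbr G j.2)
              (m, v)).measure_preimage (measurableSet_singleton y).nullMeasurableSet
            exact this
          rw [e3, walk_nbr G hd]
          split_ifs <;> simp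
        rw [Finset.sum_congr rfl e2, Finset.sum_ite_mem, Finset.univ_inter]
        have e4 : stay G A (j + 1) v = (∑ y ∈ G.neighborFinset v, stay G A j y) / (G.degree v : ℝ) := by
          conv_lhs => unfold stay
          rw [if_pos hv]
        have hdv : (0 : ℝ) < G.degree v := by exact_mod_cast hd v
        rw [e4, ← Finset.mul_sum, div_eq_inv_mul, ENNReal.ofReal_mul (by positivity),
          ENNReal.ofReal_inv_of_pos hdv, ENNReal.ofReal_natCast,
          ENNReal.ofReal_sum_of_nonneg (fun y _ => stay_nonneg G A j y)]
      · intro y _ y' _ hne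
        rw [Function.onFun, Set.disjoint_left]
        rintro c ⟨h1, _⟩ ⟨h2, _⟩
        exact hne (h1.symm.trans h2)
      · intro y _
        exact (measurableSet_eq_fun (measurable_pi_apply _) measurable_const).inter
          (walkE_meas A (m + 1) j y)
    · have : walkE A m (j + 1) v = ∅ := by
        ext c
        simp only [walkE, Set.mem_setOf_eq, Set.mem_empty_iff_false, iff_false]
        intro h
        exact hv (h 0 (by omega))
      rw [this, measure_empty]
      have e4 : stay G A (j + 1) v = 0 := by
        conv_lhs => unfold stay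
        rw [if_neg hv]
      rw [e4, ENNReal.ofReal_zero]

theorem taskWalk : TaskWalk := by
  intro V _ _ _ _ G _ hd A j v
  have := walk_main G hd A j 0 v
  unfold walkE at this
  simpa using this

end Pool.Agent.H102R3.FR
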