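import Pool.Agent.H369R3.UT.Defs

set_option autoImplicit false

open Set Filter Topology Metric MeasureTheory

namespace Pool.Agent.H915R3.UT

open Pool.Agent.H369R3.UT

theorem taskI1 : Pool.Agent.H369R3.UT.TaskI1 := by
  intro hH n f a R M C δ hf hC hM hδ hδR hCM y hy
  have hcont : Continuous f := hf.continuous
  have hg : Continuous (fun z : Cn n => f z - M / 2 * ‖z - y‖ ^ 2) := by fun_prop
  have hycl : y ∈ closedBall a R := by
    rw [mem_ball] at hy
    rw [mem_closedBall]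
    linarith
  obtain ⟨x, hx, hmax⟩ := (isCompact_closedBall a R).exists_isMaxOn ⟨y, hycl⟩ hg.continuousOn
  have hmax' : ∀ z ∈ closedBall a R,
      f z - M / 2 * ‖z - y‖ ^ 2 ≤ f x - M / 2 * ‖x - y‖ ^ 2 := fun z hz => hmax hz
  have h1 := hmax' y hycl
  rw [sub_self, norm_zero] at h1
  have h2 := abs_le.mp (hC y hycl)
  have h3 := abs_le.mp (hC x hx)
  have h4 : ‖x - y‖ ^ 2 < δ ^ 2 := by
    have h41 : M * ‖x - y‖ ^ 2 ≤ 4 * C := by nlinarith
    have h42 : M * ‖x - y‖ ^ 2 < M * δ ^ 2 := by linarith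
    exact lt_of_mul_lt_mul_left h42 hM.le
  have h5 : ‖x - y‖ < δ := lt_of_pow_lt_pow_left₀ 2 hδ.le h4
  have hxb : x ∈ ball a R := by
    rw [mem_ball] at hy ⊢
    calc dist x a ≤ dist x y + dist y a := dist_triangle _ _ _
      _ < δ + (R - δ) := by rw [dist_eq_norm x y]; linarith
      _ = R := by ring
  have hloc : IsLocalMax (fun z => f z - M / 2 * ‖z - y‖ ^ 2) x := by
    filter_upwards [isOpen_ball.mem_nhds hxb] with z hz
    exact hmax' z (ball_subset_closedBall hz)
  obtain ⟨hd, -⟩ := hH n f x y M hf hloc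
  refine ⟨x, ⟨⟨hx, y, hycl, hmax'⟩, hxb⟩, ?_⟩
  unfold vert grad
  have h6 : fderiv ℝ f x = InnerProductSpace.toDual ℝ (Cn n) (M • (x - y)) := by
    refine ContinuousLinearMap.ext fun v => ?_
    rw [hd v, InnerProductSpace.toDual_apply_apply, real_inner_smul_left]
  rw [h6, LinearIsometryEquiv.symm_apply_apply, smul_smul, inv_mul_cancel₀ hM.ne', one_smul]
  abel

end Pool.Agent.H915R3.UT
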