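import Pool.Agent.H737R3.Cont.Stmts

/-! Task T2 of H737-CONT: degree bookkeeping for ideals generated in low degree. -/

set_option autoImplicit false

universe u

namespace Pool.Agent.H915R3.ContT2

open MvPolynomial Pool.Agent.Chud Pool.Agent.H580C Pool.Agent.H737R3 Pool.Agent.H737R3.Cont

section

variable {k : Type u} [Field k] {n : ℕ}

/-- `x` has all its components of degree `l` in `irr^(l-e) * B` -/
def Q (x : MvPolynomial (Fin (n + 1)) k) (B : Ideal (MvPolynomial (Fin (n + 1)) k)) (e : ℕ) :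
    Prop :=
  ∀ l : ℕ, homogeneousComponent l x ∈ irr k n ^ (l - e) * B

theorem homog_mem_irr {F : MvPolynomial (Fin (n + 1)) k} {d : ℕ} (hF : F.IsHomogeneous d) :
    F ∈ irr k n ^ d := by
  classical
  rw [F.as_sum]
  apply Ideal.sum_mem
  intro c hc
  rw [monomial_eq, Finsupp.prod_fintype _ _ (by simp)]
  apply Ideal.mul_mem_left
  have h1 : ∏ i : Fin (n + 1), (X i : MvPolynomial (Fin (n + 1)) k) ^ c i ∈
      ∏ i : Fin (n + 1), (irr k n) ^ (c i) := by
    apply Ideal.prod_mem_prod
    intro i _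
    exact Ideal.pow_mem_pow (Ideal.subset_span (Set.mem_range_self i)) _
  rw [Finset.prod_pow_eq_pow_sum] at h1
  refine Ideal.pow_le_pow_right ?_ h1
  have h3 : c.degree = d := by
    have := hF (mem_support_iff.1 hc)
    rwa [Finsupp.degree_eq_weight_one]
  rw [Finsupp.degree_eq_sum] at h3
  omega

theorem Q_add {x y : MvPolynomial (Fin (n + 1)) k} {B : Ideal (MvPolynomial (Fin (n + 1)) k)}
    {e : ℕ} (hx : Q x B e) (hy : Q y B e) : Q (x + y) B e := by
  intro l
  rw [map_add]
  exact Ideal.add_mem _ (hx l) (hy l)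

theorem Q_zero {B : Ideal (MvPolynomial (Fin (n + 1)) k)} {e : ℕ} :
    Q (0 : MvPolynomial (Fin (n + 1)) k) B e := by
  intro l
  rw [map_zero]
  exact Ideal.zero_mem _

theorem Q_sum {ι : Type*} {s : Finset ι} {f : ι → MvPolynomial (Fin (n + 1)) k}
    {B : Ideal (MvPolynomial (Fin (n + 1)) k)} {e : ℕ} (h : ∀ i ∈ s, Q (f i) B e) :
    Q (∑ i ∈ s, f i) B e := by
  intro l
  rw [map_sum]
  exact Ideal.sum_mem _ fun i hi => h i hi l

theorem Q_top (x : MvPolynomial (Fin (n + 1)) k) : Q x ⊤ 0 := by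
  intro l
  rw [Ideal.mul_top, Nat.sub_zero]
  exact homog_mem_irr (homogeneousComponent_isHomogeneous l x)

theorem Q_homog {x : MvPolynomial (Fin (n + 1)) k} {B : Ideal (MvPolynomial (Fin (n + 1)) k)}
    {e m : ℕ} (hx : x.IsHomogeneous m) (h : x ∈ irr k n ^ (m - e) * B) : Q x B e := by
  intro l
  rw [homogeneousComponent_of_mem hx]
  split_ifs with hl
  · rwa [hl]
  · exact Ideal.zero_mem _

theorem Q_mul {y z : MvPolynomial (Fin (n + 1)) k} {B B' : Ideal (MvPolynomial (Fin (n + 1)) k)}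
    {e e' : ℕ} (hy : Q y B e) (hz : Q z B' e') : Q (y * z) (B * B') (e + e') := by
  have h1 : y * z = ∑ i ∈ Finset.range (y.totalDegree + 1),
      ∑ j ∈ Finset.range (z.totalDegree + 1),
        homogeneousComponent i y * homogeneousComponent j z := by
    rw [← Finset.sum_mul_sum, sum_homogeneousComponent, sum_homogeneousComponent]
  rw [h1]
  apply Q_sum
  intro i _
  apply Q_sum
  intro j _
  apply Q_homog ((homogeneousComponent_isHomogeneous i y).mul
    (homogeneousComponent_isHomogeneous j z))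
  have h2 := Ideal.mul_mem_mul (hy i) (hz j)
  have h3 : irr k n ^ (i - e) * B * (irr k n ^ (j - e') * B') =
      irr k n ^ ((i - e) + (j - e')) * (B * B') := by
    rw [pow_add]; ring
  rw [h3] at h2
  exact Ideal.mul_mono (Ideal.pow_le_pow_right (by omega)) le_rfl h2

/-- all elements of `B` have property `Q` -/
def Pr (B : Ideal (MvPolynomial (Fin (n + 1)) k)) (e : ℕ) : Prop := ∀ x ∈ B, Q x B e

theorem Pr_span {S : Set (MvPolynomial (Fin (n + 1)) k)} {e : ℕ}
    (hS : ∀ f ∈ S, ∃ l ≤ e, f.IsHomogeneous l) : Pr (Ideal.span S) e := by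
  intro x hx
  refine Submodule.span_induction (p := fun x _ => Q x (Ideal.span S) e) ?_ ?_ ?_ ?_ hx
  · intro f hf
    obtain ⟨l, hl, hfl⟩ := hS f hf
    apply Q_homog hfl
    rw [Nat.sub_eq_zero_of_le hl, pow_zero, one_mul]
    exact Ideal.subset_span hf
  · exact Q_zero
  · intro x y _ _ hx hy
    exact Q_add hx hy
  · intro a x _ hx
    have h1 := Q_mul (Q_top a) hx
    rw [Ideal.top_mul, zero_add] at h1
    exact h1

theorem Pr_mul {B B' : Ideal (MvPolynomial (Fin (n + 1)) k)} {e e' : ℕ} (hB : Pr B e)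
    (hB' : Pr B' e') : Pr (B * B') (e + e') := by
  intro x hx
  refine Submodule.mul_induction_on hx ?_ ?_
  · intro y hy z hz
    exact Q_mul (hB y hy) (hB' z hz)
  · intro x y hx hy
    exact Q_add hx hy

theorem Pr_pow {B : Ideal (MvPolynomial (Fin (n + 1)) k)} {e : ℕ} (hB : Pr B e) (t : ℕ) :
    Pr (B ^ t) (t * e) := by
  induction t with
  | zero =>
    rw [pow_zero, Nat.zero_mul, Ideal.one_eq_top]
    intro x _
    exact Q_top x
  | succ t ih =>
    rw [pow_succ, Nat.succ_mul]
    exact Pr_mul ih hB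

end

theorem taskT2 : TaskT2.{u} := by
  intro k _ n s t d P w F ht hP hF hmem
  rcases Nat.eq_zero_or_pos (d / t) with h0 | hpos
  · have h1 : lowI P w (d / t) = ⊥ := by
      rw [h0, lowI]
      have : {f : MvPolynomial (Fin (n + 1)) k | ∃ l, l < 0 ∧ f.IsHomogeneous l ∧
          ∀ i, f ∈ mI (P i) ^ w i} = ∅ := by
        ext f
        simp
      rw [this, Ideal.span_empty]
    rw [h1, Ideal.bot_pow ht.ne', Ideal.mem_bot] at hmem
    rw [hmem]
    exact Ideal.zero_mem _
  · have hA : Pr (lowI P w (d / t)) (d / t - 1) := by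
      apply Pr_span
      rintro f ⟨l, hl, hfl, -⟩
      exact ⟨l, by omega, hfl⟩
    have h1 := Pr_pow hA t F hmem d
    rw [homogeneousComponent_of_mem hF, if_pos rfl] at h1
    have h2 : t ≤ d - t * (d / t - 1) := by
      have h3 : t * (d / t) ≤ d := Nat.mul_div_le d t
      have h4 : t * (d / t - 1) + t = t * (d / t) := by
        rw [← Nat.mul_succ]
        congr 1
        omega
      omega
    have h5 : lowI P w (d / t) ≤ ⨅ i : Fin s, linI (P i) ^ w i := by
      rw [lowI, Ideal.span_le]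
      rintro f ⟨l, -, hfl, hfm⟩
      refine (Submodule.mem_iInf _).2 fun i => ?_
      exact mem_linI_pow hfl (hP i) (hfm i)
    exact Ideal.mul_mono (Ideal.pow_le_pow_right h2) (Ideal.pow_right_mono h5 t) h1

end Pool.Agent.H915R3.ContT2
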