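import Mathlib

set_option autoImplicit false

open Filter Topology Set Metric

namespace Pool.Agent.H915R3.Disc

/-- real part of the Cayley-type function -/
lemma re_G (a w : ℂ) (h : a - w ≠ 0) :
    ((a + w) / (a - w)).re = (‖a‖ ^ 2 - ‖w‖ ^ 2) / ‖a - w‖ ^ 2 := by
  rw [Complex.div_re, ← Complex.normSq_eq_norm_sq, ← Complex.normSq_eq_norm_sq,
    ← Complex.normSq_eq_norm_sq]
  have h' : Complex.normSq (a - w) ≠ 0 := by simpa using h
  field_simp
  simp only [Complex.normSq_apply, Complex.add_re, Complex.sub_re, Complex.add_im, Complex.sub_im]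
  ring

/-- polynomial approximation of a function holomorphic on a larger disc -/
lemma approx (F : ℂ → ℂ) (ρ R : ℝ) (hρ : 0 ≤ ρ) (hρR : ρ < R) (hF : DifferentiableOn ℂ F (ball 0 R))
    (ε : ℝ) (hε : 0 < ε) :
    ∃ q : Polynomial ℂ, ∀ w : ℂ, ‖w‖ ≤ ρ → ‖F w - q.eval w‖ < ε := by
  obtain ⟨r, hr1, hr2⟩ := exists_between hρR
  obtain ⟨r', hr'1, hr'2⟩ := exists_between hr1
  have hr0 : 0 < r := lt_of_le_of_lt hρ hr1
  have hr'0 : 0 < r' := lt_of_le_of_lt hρ hr'1
  lift r to NNReal using hr0.le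
  lift r' to NNReal using hr'0.le
  have hps : HasFPowerSeriesOnBall F (cauchyPowerSeries F 0 r) 0 r := by
    apply DifferentiableOn.hasFPowerSeriesOnBall
    · exact hF.mono (closedBall_subset_ball hr2)
    · exact_mod_cast hr0
  have hu := hps.tendstoUniformlyOn (r' := r') (by exact_mod_cast hr'2)
  rw [Metric.tendstoUniformlyOn_iff] at hu
  obtain ⟨n, hn⟩ := (hu ε hε).exists
  refine ⟨∑ k ∈ Finset.range n, Polynomial.C ((cauchyPowerSeries F 0 r).coeff k) *
    Polynomial.X ^ k, fun w hw => ?_⟩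
  have h1 := hn w (by
    rw [mem_ball_zero_iff]
    exact lt_of_le_of_lt hw hr'1)
  rw [dist_eq_norm, zero_add] at h1
  have e : (∑ k ∈ Finset.range n, Polynomial.C ((cauchyPowerSeries F 0 r).coeff k) *
    Polynomial.X ^ k).eval w = (cauchyPowerSeries F 0 r).partialSum n w := by
    rw [FormalMultilinearSeries.partialSum, Polynomial.eval_finsetSum]
    apply Finset.sum_congr rfl
    intro k _
    rw [FormalMultilinearSeries.apply_eq_pow_smul_coeff, Polynomial.eval_mul, Polynomial.eval_C,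
      Polynomial.eval_pow, Polynomial.eval_X, smul_eq_mul, mul_comm]
  rw [e]
  exact h1

/-- separation of a point of the closed disc from a proper closed subset of the circle -/
lemma separate (ρ δ : ℝ) (hρ : 0 < ρ) (hδ : 0 < δ) (K : Set ℂ) (b z : ℂ) (hb : ‖b‖ = ρ)
    (hK : ∀ w ∈ K, ‖w‖ = ρ ∧ δ ≤ ‖b - w‖) (hz : ‖z‖ < ρ ∨ z = b) :
    ∃ q : Polynomial ℂ, (∀ w ∈ K, ‖q.eval w‖ < 1) ∧ 1 < ‖q.eval z‖ := by
  -- lower bound at z
  obtain ⟨m, hm, hmz⟩ : ∃ m : ℝ, 0 < m ∧ ∀ ε : ℝ, 0 < ε → ε ≤ 1 →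
      m ≤ ((((1 + ε : ℝ) : ℂ) * b + z) / (((1 + ε : ℝ) : ℂ) * b - z)).re := by
    rcases hz with hz | hz
    · refine ⟨(ρ ^ 2 - ‖z‖ ^ 2) / (3 * ρ) ^ 2, ?_, ?_⟩
      · apply div_pos
        · nlinarith [norm_nonneg z]
        · positivity
      · intro ε h0 h1
        have hna : ‖((1 + ε : ℝ) : ℂ) * b‖ = (1 + ε) * ρ := by
          rw [norm_mul, hb, Complex.norm_real, Real.norm_of_nonneg (by linarith)]
        have hne : ((1 + ε : ℝ) : ℂ) * b - z ≠ 0 := by
          intro h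
          have := sub_eq_zero.1 h
          rw [← this, hna] at hz
          nlinarith
        rw [re_G _ _ hne, hna]
        have h2 : ‖((1 + ε : ℝ) : ℂ) * b - z‖ ≤ 3 * ρ := by
          refine (norm_sub_le _ _).trans ?_
          rw [hna]; nlinarith
        have h3 : 0 < ‖((1 + ε : ℝ) : ℂ) * b - z‖ := norm_pos_iff.2 hne
        have h4 : ρ ^ 2 ≤ ((1 + ε) * ρ) ^ 2 := by
          apply pow_le_pow_left₀ hρ.le
          nlinarith
        have h5 : 0 ≤ ρ ^ 2 - ‖z‖ ^ 2 := by nlinarith [norm_nonneg z]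
        gcongr
        linarith
    · refine ⟨1, one_pos, ?_⟩
      intro ε h0 h1
      have hna : ‖((1 + ε : ℝ) : ℂ) * b‖ = (1 + ε) * ρ := by
        rw [norm_mul, hb, Complex.norm_real, Real.norm_of_nonneg (by linarith)]
      have he : ((1 + ε : ℝ) : ℂ) * b - z = (ε : ℂ) * b := by
        rw [hz]; push_cast; ring
      have hne : ((1 + ε : ℝ) : ℂ) * b - z ≠ 0 := by
        rw [he]
        apply mul_ne_zero
        · exact_mod_cast h0.ne'
        · rw [← norm_pos_iff, hb]; exact hρ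
      rw [re_G _ _ hne, hna, he, norm_mul, hb, Complex.norm_real, Real.norm_of_nonneg h0.le, hz, hb]
      rw [le_div_iff₀ (by positivity)]
      nlinarith [mul_pos hρ hρ, mul_pos h0 (mul_pos hρ hρ), mul_pos h0 h0]
  -- choose ε
  obtain ⟨ε, h0, h1, h2, h3⟩ : ∃ ε : ℝ, 0 < ε ∧ ε ≤ 1 ∧ ε * ρ ≤ δ / 2 ∧
      (2 * ε + ε ^ 2) * ρ ^ 2 / (δ / 2) ^ 2 < m / 2 := by
    have e1 : ∀ᶠ ε in 𝓝[>] (0:ℝ), 0 < ε := self_mem_nhdsWithin
    have e2 : ∀ᶠ ε in 𝓝[>] (0:ℝ), ε < 1 :=
      nhdsWithin_le_nhds (Iio_mem_nhds one_pos)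
    have e3 : ∀ᶠ ε in 𝓝[>] (0:ℝ), ε * ρ < δ / 2 := by
      apply nhdsWithin_le_nhds
      have : Continuous fun ε : ℝ => ε * ρ := by fun_prop
      apply this.continuousAt.eventually_lt continuousAt_const
      simpa using hδ
    have e4 : ∀ᶠ ε in 𝓝[>] (0:ℝ), (2 * ε + ε ^ 2) * ρ ^ 2 / (δ / 2) ^ 2 < m / 2 := by
      apply nhdsWithin_le_nhds
      have : Continuous fun ε : ℝ => (2 * ε + ε ^ 2) * ρ ^ 2 / (δ / 2) ^ 2 := by fun_prop
      apply this.continuousAt.eventually_lt continuousAt_const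
      simpa using hm
    obtain ⟨ε, h1, h2, h3, h4⟩ := (e1.and (e2.and (e3.and e4))).exists
    exact ⟨ε, h1, h2.le, h3.le, h4⟩
  set a : ℂ := ((1 + ε : ℝ) : ℂ) * b with ha
  have hna : ‖a‖ = (1 + ε) * ρ := by
    rw [ha, norm_mul, hb, Complex.norm_real, Real.norm_of_nonneg (by linarith)]
  have hmz' := hmz ε h0 h1
  have hKG : ∀ w ∈ K, ((a + w) / (a - w)).re < m / 2 := by
    intro w hw
    obtain ⟨hw1, hw2⟩ := hK w hw
    have hab : ‖a - b‖ = ε * ρ := by
      have : a - b = (ε : ℂ) * b := by rw [ha]; push_cast; ring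
      rw [this, norm_mul, hb, Complex.norm_real, Real.norm_of_nonneg h0.le]
    have h4 : δ / 2 ≤ ‖a - w‖ := by
      have : ‖b - w‖ ≤ ‖a - w‖ + ‖a - b‖ := by
        have : b - w = (a - w) - (a - b) := by ring
        rw [this]; exact norm_sub_le _ _
      rw [hab] at this
      linarith
    have hne : a - w ≠ 0 := by
      rw [← norm_pos_iff]; linarith
    rw [re_G _ _ hne, hna, hw1]
    refine lt_of_le_of_lt ?_ h3
    have : ((1 + ε) * ρ) ^ 2 - ρ ^ 2 = (2 * ε + ε ^ 2) * ρ ^ 2 := by ring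
    rw [this]
    gcongr
  set F : ℂ → ℂ := fun w => Complex.exp ((a + w) / (a - w) - ((3 * m / 4 : ℝ) : ℂ)) with hFdef
  have hF : DifferentiableOn ℂ F (ball 0 ((1 + ε) * ρ)) := by
    intro w hw
    rw [mem_ball_zero_iff] at hw
    have hne : a - w ≠ 0 := by
      intro h
      rw [sub_eq_zero] at h
      rw [← h, hna] at hw
      exact lt_irrefl _ hw
    apply DifferentiableAt.differentiableWithinAt
    rw [hFdef]
    apply DifferentiableAt.cexp
    apply DifferentiableAt.sub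
    · apply DifferentiableAt.div
      · fun_prop
      · fun_prop
      · exact hne
    · fun_prop
  have hFn : ∀ w, ‖F w‖ = Real.exp (((a + w) / (a - w)).re - 3 * m / 4) := by
    intro w
    rw [hFdef]
    simp only [Complex.norm_exp, Complex.sub_re, Complex.ofReal_re]
  obtain ⟨η, hη0, hη1, hη2⟩ : ∃ η : ℝ, 0 < η ∧ Real.exp (-(m / 4)) + η < 1 ∧
      1 < Real.exp (m / 4) - η := by
    have a1 : Real.exp (-(m/4)) < 1 := by
      rw [Real.exp_lt_one_iff]; linarith
    have a2 : 1 < Real.exp (m / 4) := by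
      rw [Real.one_lt_exp_iff]; linarith
    refine ⟨min ((1 - Real.exp (-(m/4))) / 2) ((Real.exp (m/4) - 1) / 2), ?_, ?_, ?_⟩
    · apply lt_min <;> linarith
    · have := min_le_left ((1 - Real.exp (-(m/4))) / 2) ((Real.exp (m/4) - 1) / 2)
      linarith
    · have := min_le_right ((1 - Real.exp (-(m/4))) / 2) ((Real.exp (m/4) - 1) / 2)
      linarith
  obtain ⟨q, hq⟩ := approx F ρ ((1 + ε) * ρ) hρ.le (by nlinarith) hF η hη0
  refine ⟨q, fun w hw => ?_, ?_⟩
  · have h4 := hq w (hK w hw).1.le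
    have h5 : ‖q.eval w‖ ≤ ‖F w‖ + ‖F w - q.eval w‖ := by
      have : q.eval w = F w - (F w - q.eval w) := by ring
      calc ‖q.eval w‖ = ‖F w - (F w - q.eval w)‖ := by rw [← this]
        _ ≤ _ := norm_sub_le _ _
    have h6 : ‖F w‖ ≤ Real.exp (-(m/4)) := by
      rw [hFn]
      apply Real.exp_le_exp.2
      have := hKG w hw
      linarith
    linarith
  · have hz' : ‖z‖ ≤ ρ := by
      rcases hz with h | h
      · exact h.le
      · rw [h, hb]
    have h4 := hq z hz'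
    have h5 : ‖F z‖ ≤ ‖q.eval z‖ + ‖F z - q.eval z‖ := by
      have : F z = q.eval z + (F z - q.eval z) := by ring
      calc ‖F z‖ = ‖q.eval z + (F z - q.eval z)‖ := by rw [← this]
        _ ≤ _ := norm_add_le _ _
    have h6 : Real.exp (m/4) ≤ ‖F z‖ := by
      rw [hFn]
      apply Real.exp_le_exp.2
      linarith
    linarith

end Pool.Agent.H915R3.Disc
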