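import Mathlib

/-!
# Pick (radial slit) maps of the disc, and 5-jets under composition

`pick x` (for `0 < x < 1`) is the conformal map of the unit disc onto the disc minus a radial slit,
`pick x = k⁻¹ (x · k)` with `k` the Koebe function.  We show that the class of injective holomorphic
`g` on the disc, `g = z + c₂ z² + ... + c₅ z⁵ + O(z⁶)`, is stable under rotations and under
`g ↦ x⁻¹ g ∘ pick x`, with explicit formulas for the coefficients.
-/

set_option autoImplicit false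

open Complex Filter Topology Metric Set

namespace Pool.Agent.H915Pick

/-- The Cayley transform of the disc to the right half plane. -/
noncomputable def cay (z : ℂ) : ℂ := (1 + z) / (1 - z)

lemma one_sub_ne {z : ℂ} (hz : ‖z‖ < 1) : (1 : ℂ) - z ≠ 0 := by
  intro h
  have : z = 1 := by linear_combination -h
  rw [this] at hz
  simp at hz

lemma cay_re_pos {z : ℂ} (hz : ‖z‖ < 1) : 0 < (cay z).re := by
  have hne := one_sub_ne hz
  have h1 : (cay z).re = (1 - normSq z) / normSq (1 - z) := by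
    unfold cay
    rw [Complex.div_re]
    have : normSq (1 - z) ≠ 0 := by simpa [Complex.normSq_eq_zero] using hne
    field_simp
    simp [Complex.normSq_apply]
    ring
  rw [h1]
  apply div_pos
  · have : normSq z < 1 := by
      rw [Complex.normSq_eq_norm_sq]
      nlinarith [norm_nonneg z]
    linarith
  · exact Complex.normSq_pos.mpr hne

lemma cay_diff {z : ℂ} (hz : ‖z‖ < 1) : DifferentiableAt ℂ cay z := by
  unfold cay
  apply DifferentiableAt.div
  · fun_prop
  · fun_prop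
  · exact one_sub_ne hz

lemma cay_inj {z w : ℂ} (hz : ‖z‖ < 1) (hw : ‖w‖ < 1) (h : cay z = cay w) : z = w := by
  unfold cay at h
  rw [div_eq_div_iff (one_sub_ne hz) (one_sub_ne hw)] at h
  linear_combination h / 2

/-- The square of the Cayley transform, contracted towards `1`. -/
noncomputable def uu (x : ℝ) (z : ℂ) : ℂ := (x : ℂ) * (cay z) ^ 2 + (1 - x)

lemma uu_mem {x : ℝ} (h0 : 0 < x) (h1 : x < 1) {z : ℂ} (hz : ‖z‖ < 1) :
    uu x z ∈ slitPlane := by
  have hp := cay_re_pos hz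
  rw [Complex.mem_slitPlane_iff]
  have hre : (uu x z).re = x * ((cay z).re ^ 2 - (cay z).im ^ 2) + (1 - x) := by
    simp [uu, pow_two]
  have him : (uu x z).im = 2 * x * (cay z).re * (cay z).im := by
    simp [uu, pow_two]
    ring
  by_cases hb : (cay z).im = 0
  · left
    rw [hre, hb]
    nlinarith [mul_pos h0 (pow_pos hp 2)]
  · right
    rw [him]
    have : (0 : ℝ) < 2 * x * (cay z).re := by positivity
    exact mul_ne_zero (ne_of_gt this) hb

/-- A square root of `uu x z` with positive real part. -/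
noncomputable def ss (x : ℝ) (z : ℂ) : ℂ := Complex.exp (Complex.log (uu x z) / 2)

lemma ss_sq {x : ℝ} (h0 : 0 < x) (h1 : x < 1) {z : ℂ} (hz : ‖z‖ < 1) :
    (ss x z) ^ 2 = uu x z := by
  have hne : uu x z ≠ 0 := Complex.slitPlane_ne_zero (uu_mem h0 h1 hz)
  unfold ss
  rw [← Complex.exp_nat_mul]
  have : ((2 : ℕ) : ℂ) * (Complex.log (uu x z) / 2) = Complex.log (uu x z) := by
    push_cast; ring
  rw [this, Complex.exp_log hne]

lemma ss_re_pos {x : ℝ} (h0 : 0 < x) (h1 : x < 1) {z : ℂ} (hz : ‖z‖ < 1) :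
    0 < (ss x z).re := by
  have hm := uu_mem h0 h1 hz
  unfold ss
  rw [Complex.exp_re]
  apply mul_pos (Real.exp_pos _)
  apply Real.cos_pos_of_mem_Ioo
  have him : (Complex.log (uu x z) / 2).im = (uu x z).arg / 2 := by
    have : (Complex.log (uu x z) / 2) = (Complex.log (uu x z)) * ((1/2 : ℝ) : ℂ) := by
      push_cast; ring
    rw [this, Complex.im_mul_ofReal, Complex.log_im]
    ring
  rw [him]
  have h3 := Complex.neg_pi_lt_arg (uu x z)
  have h4 := Complex.arg_le_pi (uu x z)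
  have h5 : (uu x z).arg ≠ Real.pi := (Complex.mem_slitPlane_iff_arg.mp hm).1
  have h6 : (uu x z).arg < Real.pi := lt_of_le_of_ne h4 h5
  constructor <;> linarith

/-- The Pick function. -/
noncomputable def pick (x : ℝ) (z : ℂ) : ℂ := (ss x z - 1) / (ss x z + 1)

lemma ss_add_ne {x : ℝ} (h0 : 0 < x) (h1 : x < 1) {z : ℂ} (hz : ‖z‖ < 1) :
    ss x z + 1 ≠ 0 := by
  intro h
  have := ss_re_pos h0 h1 hz
  have h2 : (ss x z + 1).re = 0 := by rw [h]; simp
  simp at h2
  linarith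

lemma pick_norm_lt {x : ℝ} (h0 : 0 < x) (h1 : x < 1) {z : ℂ} (hz : ‖z‖ < 1) :
    ‖pick x z‖ < 1 := by
  unfold pick
  rw [norm_div, div_lt_one (norm_pos_iff.mpr (ss_add_ne h0 h1 hz))]
  have := ss_re_pos h0 h1 hz
  apply lt_of_pow_lt_pow_left₀ 2 (norm_nonneg _)
  rw [← Complex.normSq_eq_norm_sq, ← Complex.normSq_eq_norm_sq, Complex.normSq_apply,
    Complex.normSq_apply]
  simp
  nlinarith

lemma pick_diff {x : ℝ} (h0 : 0 < x) (h1 : x < 1) :
    DifferentiableOn ℂ (pick x) (ball (0 : ℂ) 1) := by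
  intro z hz
  rw [mem_ball_zero_iff] at hz
  apply DifferentiableAt.differentiableWithinAt
  have hm := uu_mem h0 h1 hz
  have hu : DifferentiableAt ℂ (uu x) z := by
    unfold uu
    have := cay_diff hz
    fun_prop
  have hs : DifferentiableAt ℂ (ss x) z := by
    unfold ss
    exact ((hu.clog hm).div_const 2).cexp
  unfold pick
  exact (hs.sub_const 1).div (hs.add_const 1) (ss_add_ne h0 h1 hz)

lemma pick_injOn {x : ℝ} (h0 : 0 < x) (h1 : x < 1) :
    InjOn (pick x) (ball (0 : ℂ) 1) := by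
  intro z hz w hw h
  rw [mem_ball_zero_iff] at hz hw
  unfold pick at h
  rw [div_eq_div_iff (ss_add_ne h0 h1 hz) (ss_add_ne h0 h1 hw)] at h
  have hs : ss x z = ss x w := by linear_combination h / 2
  have hu : uu x z = uu x w := by rw [← ss_sq h0 h1 hz, ← ss_sq h0 h1 hw, hs]
  have hx : (x : ℂ) ≠ 0 := by exact_mod_cast h0.ne'
  have hc : (cay z) ^ 2 = (cay w) ^ 2 := by
    unfold uu at hu
    have : (x : ℂ) * ((cay z) ^ 2 - (cay w) ^ 2) = 0 := by linear_combination hu
    rcases mul_eq_zero.mp this with h | h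
    · exact absurd h hx
    · linear_combination h
  rcases sq_eq_sq_iff_eq_or_eq_neg.mp hc with h | h
  · exact cay_inj hz hw h
  · exfalso
    have hz' := cay_re_pos hz
    have hw' := cay_re_pos hw
    rw [h] at hz'
    simp at hz'
    linarith

lemma pick_rel {x : ℝ} (h0 : 0 < x) (h1 : x < 1) {z : ℂ} (hz : ‖z‖ < 1) :
    pick x z * (1 - z) ^ 2 = x * z * (1 - pick x z) ^ 2 := by
  have hs := ss_sq h0 h1 hz
  have hne := ss_add_ne h0 h1 hz
  have hz1 := one_sub_ne hz
  unfold uu cay at hs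
  have hs' : (ss x z) ^ 2 * (1 - z) ^ 2 = x * (1 + z) ^ 2 + (1 - x) * (1 - z) ^ 2 := by
    rw [hs]
    field_simp
  unfold pick
  have e1 : (1 : ℂ) - (ss x z - 1) / (ss x z + 1) = 2 / (ss x z + 1) := by
    field_simp
    ring
  rw [e1]
  field_simp
  linear_combination hs'

lemma cay_zero : cay 0 = 1 := by simp [cay]

lemma pick_zero (x : ℝ) : pick x 0 = 0 := by
  simp [pick, ss, uu, cay_zero]

/-! ### Congruence modulo `z ^ 6` -/

/-- `f ≡ g` modulo `z ^ 6` at the origin. -/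
def R (f g : ℂ → ℂ) : Prop :=
  ∃ h : ℂ → ℂ, AnalyticAt ℂ h 0 ∧ ∀ᶠ z in 𝓝 (0 : ℂ), f z = g z + z ^ 6 * h z

lemma R.refl (f : ℂ → ℂ) : R f f :=
  ⟨fun _ => 0, analyticAt_const, Eventually.of_forall (fun z => by simp)⟩

lemma R.trans {f g k : ℂ → ℂ} (h1 : R f g) (h2 : R g k) : R f k := by
  obtain ⟨a, ha, ea⟩ := h1
  obtain ⟨b, hb, eb⟩ := h2
  refine ⟨fun z => a z + b z, ha.add hb, ?_⟩
  filter_upwards [ea, eb] with z h3 h4
  rw [h3, h4]; ring

lemma R.add {f g f' g' : ℂ → ℂ} (h1 : R f g) (h2 : R f' g') :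
    R (fun z => f z + f' z) (fun z => g z + g' z) := by
  obtain ⟨a, ha, ea⟩ := h1
  obtain ⟨b, hb, eb⟩ := h2
  refine ⟨fun z => a z + b z, ha.add hb, ?_⟩
  filter_upwards [ea, eb] with z h3 h4
  rw [h3, h4]; ring

lemma R.cmul {f g : ℂ → ℂ} (c : ℂ) (h1 : R f g) :
    R (fun z => c * f z) (fun z => c * g z) := by
  obtain ⟨a, ha, ea⟩ := h1
  refine ⟨fun z => c * a z, analyticAt_const.mul ha, ?_⟩
  filter_upwards [ea] with z h3
  rw [h3]; ring

lemma R.mul {f g f' g' : ℂ → ℂ} (h1 : R f g) (h2 : R f' g')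
    (hg : AnalyticAt ℂ g 0) (hg' : AnalyticAt ℂ g' 0) :
    R (fun z => f z * f' z) (fun z => g z * g' z) := by
  obtain ⟨a, ha, ea⟩ := h1
  obtain ⟨b, hb, eb⟩ := h2
  refine ⟨fun z => a z * g' z + g z * b z + z ^ 6 * (a z * b z),
    ((ha.mul hg').add (hg.mul hb)).add ((analyticAt_id.pow 6).mul (ha.mul hb)), ?_⟩
  filter_upwards [ea, eb] with z h3 h4
  rw [h3, h4]; ring

lemma R.of_eq {f g : ℂ → ℂ} (h : ℂ → ℂ) (hh : AnalyticAt ℂ h 0)
    (e : ∀ z, f z = g z + z ^ 6 * h z) : R f g :=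
  ⟨h, hh, Eventually.of_forall e⟩

lemma R.congr_left {f f' g : ℂ → ℂ} (h : R f g) (e : ∀ᶠ z in 𝓝 (0 : ℂ), f' z = f z) :
    R f' g := by
  obtain ⟨a, ha, ea⟩ := h
  refine ⟨a, ha, ?_⟩
  filter_upwards [ea, e] with z h1 h2
  rw [h2, h1]

end Pool.Agent.H915Pick
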