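import Pool.Agent.H915R3.Pick

set_option autoImplicit false

open Complex Filter Topology Metric Set

namespace Pool.Agent.H915Pick

/-! ### The 5-jet of the Pick function -/

/-- Truncated Taylor polynomial of `pick x`. -/
noncomputable def T1 (x : ℂ) (z : ℂ) : ℂ :=
  x*z + (2*x-2*x^2)*z^2 + (3*x-8*x^2+5*x^3)*z^3 + (4*x-20*x^2+30*x^3-14*x^4)*z^4
    + (5*x-40*x^2+105*x^3-112*x^4+42*x^5)*z^5

noncomputable def Rp (x z : ℂ) : ℂ :=
  -6*x +70*x^2 -280*x^3 +504*x^4 -420*x^5 +132*x^6 +5*x*z -40*x^2*z +70*x^3*z +112*x^4*z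
  -462*x^5*z +480*x^6*z -165*x^7*z -44*x^3*z^2 +364*x^4*z^2 -1120*x^5*z^2 +1632*x^6*z^2
  -1140*x^7*z^2 +308*x^8*z^2 -46*x^3*z^3 +480*x^4*z^3 -1960*x^5*z^3 +4064*x^6*z^3 -4554*x^7*z^3
  +2632*x^8*z^3 -616*x^9*z^3 -40*x^3*z^4 +520*x^4*z^4 -2740*x^5*z^4 +7636*x^6*z^4 -12236*x^7*z^4
  +11340*x^8*z^4 -5656*x^9*z^4 +1176*x^10*z^4 -25*x^3*z^5 +400*x^4*z^5 -2650*x^5*z^5
  +9520*x^6*z^5 -20405*x^7*z^5 +26880*x^8*z^5 -21364*x^9*z^5 +9408*x^10*z^5 -1764*x^11*z^5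

lemma T1_rel (x z : ℂ) : T1 x z * (1-z)^2 - x*z*(1 - T1 x z)^2 = z^6 * Rp x z := by
  unfold T1 Rp
  ring

lemma analyticAt_T1 (x : ℂ) : AnalyticAt ℂ (T1 x) 0 := by
  unfold T1
  fun_prop

lemma pick_analyticAt {x : ℝ} (h0 : 0 < x) (h1 : x < 1) : AnalyticAt ℂ (pick x) 0 :=
  (pick_diff h0 h1).analyticAt (isOpen_ball.mem_nhds (mem_ball_self one_pos))

lemma ball_ev : ∀ᶠ z in 𝓝 (0 : ℂ), ‖z‖ < 1 := by
  have : ball (0 : ℂ) 1 ∈ 𝓝 (0 : ℂ) := isOpen_ball.mem_nhds (mem_ball_self one_pos)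
  filter_upwards [this] with z hz
  rwa [mem_ball_zero_iff] at hz

lemma R_pick {x : ℝ} (h0 : 0 < x) (h1 : x < 1) : R (pick x) (T1 x) := by
  have hp := pick_analyticAt h0 h1
  set B : ℂ → ℂ := fun z => (1-z)^2 + x*z*(2 - pick x z - T1 x z) with hB
  have hT := analyticAt_T1 (x : ℂ)
  have hBan : AnalyticAt ℂ B 0 := by
    rw [hB]
    exact ((analyticAt_const.sub analyticAt_id).pow 2).add
      ((analyticAt_const.mul analyticAt_id).mul ((analyticAt_const.sub hp).sub hT))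
  have hB0 : B 0 = 1 := by simp [hB]
  have hne : ∀ᶠ z in 𝓝 (0 : ℂ), B z ≠ 0 := by
    apply hBan.continuousAt.eventually_ne
    rw [hB0]; exact one_ne_zero
  refine ⟨fun z => - Rp x z / B z, ?_, ?_⟩
  · apply AnalyticAt.div _ hBan (by rw [hB0]; exact one_ne_zero)
    unfold Rp
    fun_prop
  · filter_upwards [hne, ball_ev] with z hz1 hz2
    have e1 := pick_rel h0 h1 hz2
    have e2 := T1_rel (x : ℂ) z
    have e3 : (pick x z - T1 x z) * B z = - (z^6 * Rp x z) := by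
      simp only [hB]
      linear_combination e1 - e2
    field_simp
    linear_combination e3

noncomputable def T2 (x z : ℂ) : ℂ :=
  x^2*z^2 + (4*x^2-4*x^3)*z^3 + (10*x^2-24*x^3+14*x^4)*z^4 + (20*x^2-84*x^3+112*x^4-48*x^5)*z^5
noncomputable def T3 (x z : ℂ) : ℂ :=
  x^3*z^3 + (6*x^3-6*x^4)*z^4 + (21*x^3-48*x^4+27*x^5)*z^5
noncomputable def T4 (x z : ℂ) : ℂ := x^4*z^4 + (8*x^4-8*x^5)*z^5
noncomputable def T5 (x z : ℂ) : ℂ := x^5*z^5

noncomputable def H2 (x z : ℂ) : ℂ :=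
  35*x^2 -224*x^3 +504*x^4 -480*x^5 +165*x^6 +44*x^2*z -364*x^3*z +1120*x^4*z -1632*x^5*z
  +1140*x^6*z -308*x^7*z +46*x^2*z^2 -480*x^3*z^2 +1960*x^4*z^2 -4064*x^5*z^2 +4554*x^6*z^2
  -2632*x^7*z^2 +616*x^8*z^2 +40*x^2*z^3 -520*x^3*z^3 +2740*x^4*z^3 -7636*x^5*z^3 +12236*x^6*z^3
  -11340*x^7*z^3 +5656*x^8*z^3 -1176*x^9*z^3 +25*x^2*z^4 -400*x^3*z^4 +2650*x^4*z^4 -9520*x^5*z^4
  +20405*x^6*z^4 -26880*x^7*z^4 +21364*x^8*z^4 -9408*x^9*z^4 +1764*x^10*z^4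
noncomputable def H3 (x z : ℂ) : ℂ :=
  56*x^3 -216*x^4 +270*x^5 -110*x^6 +91*x^3*z -496*x^4*z +981*x^5*z -840*x^6*z +264*x^7*z
  +120*x^3*z^2 -888*x^4*z^2 +2524*x^5*z^2 -3468*x^6*z^2 +2316*x^7*z^2 -604*x^8*z^2 +130*x^3*z^3
  -1256*x^4*z^3 +4808*x^5*z^3 -9432*x^6*z^3 +10074*x^7*z^3 -5584*x^8*z^3 +1260*x^9*z^3
  +100*x^3*z^4 -1220*x^4*z^4 +6020*x^5*z^4 -15780*x^6*z^4 +23928*x^7*z^4 -21112*x^8*z^4
  +10080*x^9*z^4 -2016*x^10*z^4
noncomputable def H4 (x z : ℂ) : ℂ :=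
  36*x^4 -80*x^5 +44*x^6 +64*x^4*z -224*x^5*z +258*x^6*z -98*x^7*z +92*x^4*z^2 -496*x^5*z^2
  +975*x^6*z^2 -832*x^7*z^2 +261*x^8*z^2 +114*x^4*z^3 -882*x^5*z^3 +2568*x^6*z^3 -3576*x^7*z^3
  +2406*x^8*z^3 -630*x^9*z^3 +105*x^4*z^4 -1080*x^5*z^4 +4260*x^6*z^4 -8472*x^7*z^4
  +9093*x^8*z^4 -5040*x^9*z^4 +1134*x^10*z^4
noncomputable def H5 (x z : ℂ) : ℂ :=
  10*x^5 -10*x^6 +19*x^5*z -40*x^6*z +21*x^7*z +28*x^5*z^2 -108*x^6*z^2 +134*x^7*z^2 -54*x^8*z^2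
  +37*x^5*z^3 -232*x^6*z^3 +505*x^7*z^3 -464*x^8*z^3 +154*x^9*z^3 +40*x^5*z^4 -360*x^6*z^4
  +1160*x^7*z^4 -1736*x^8*z^4 +1232*x^9*z^4 -336*x^10*z^4

lemma T11 (x z : ℂ) : T1 x z * T1 x z = T2 x z + z^6 * H2 x z := by
  unfold T1 T2 H2; ring
lemma T21 (x z : ℂ) : T2 x z * T1 x z = T3 x z + z^6 * H3 x z := by
  unfold T1 T2 T3 H3; ring
lemma T31 (x z : ℂ) : T3 x z * T1 x z = T4 x z + z^6 * H4 x z := by
  unfold T1 T3 T4 H4; ring
lemma T41 (x z : ℂ) : T4 x z * T1 x z = T5 x z + z^6 * H5 x z := by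
  unfold T1 T4 T5 H5; ring
lemma T51 (x z : ℂ) : T5 x z * T1 x z = 0 + z^6 *
    (x^6 + (2*x^6-2*x^7)*z + (3*x^6-8*x^7+5*x^8)*z^2 + (4*x^6-20*x^7+30*x^8-14*x^9)*z^3
    + (5*x^6-40*x^7+105*x^8-112*x^9+42*x^10)*z^4) := by
  unfold T1 T5; ring

lemma an_T2 (x : ℂ) : AnalyticAt ℂ (T2 x) 0 := by unfold T2; fun_prop
lemma an_T3 (x : ℂ) : AnalyticAt ℂ (T3 x) 0 := by unfold T3; fun_prop
lemma an_T4 (x : ℂ) : AnalyticAt ℂ (T4 x) 0 := by unfold T4; fun_prop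
lemma an_T5 (x : ℂ) : AnalyticAt ℂ (T5 x) 0 := by unfold T5; fun_prop

lemma R_p2 {x : ℝ} (h0 : 0 < x) (h1 : x < 1) : R (fun z => pick x z * pick x z) (T2 x) :=
  ((R_pick h0 h1).mul (R_pick h0 h1) (analyticAt_T1 _) (analyticAt_T1 _)).trans
    (R.of_eq (H2 x) (by unfold H2; fun_prop) (T11 x))
lemma R_p3 {x : ℝ} (h0 : 0 < x) (h1 : x < 1) :
    R (fun z => pick x z * pick x z * pick x z) (T3 x) :=
  ((R_p2 h0 h1).mul (R_pick h0 h1) (an_T2 _) (analyticAt_T1 _)).trans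
    (R.of_eq (H3 x) (by unfold H3; fun_prop) (T21 x))
lemma R_p4 {x : ℝ} (h0 : 0 < x) (h1 : x < 1) :
    R (fun z => pick x z * pick x z * pick x z * pick x z) (T4 x) :=
  ((R_p3 h0 h1).mul (R_pick h0 h1) (an_T3 _) (analyticAt_T1 _)).trans
    (R.of_eq (H4 x) (by unfold H4; fun_prop) (T31 x))
lemma R_p5 {x : ℝ} (h0 : 0 < x) (h1 : x < 1) :
    R (fun z => pick x z * pick x z * pick x z * pick x z * pick x z) (T5 x) :=
  ((R_p4 h0 h1).mul (R_pick h0 h1) (an_T4 _) (analyticAt_T1 _)).trans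
    (R.of_eq (H5 x) (by unfold H5; fun_prop) (T41 x))
lemma R_p6 {x : ℝ} (h0 : 0 < x) (h1 : x < 1) :
    R (fun z => pick x z * pick x z * pick x z * pick x z * pick x z * pick x z)
      (fun _ => 0) :=
  ((R_p5 h0 h1).mul (R_pick h0 h1) (an_T5 _) (analyticAt_T1 _)).trans
    (R.of_eq _ (by fun_prop) (T51 x))

/-- The 5-jet of `g` is `z + c₂ z² + c₃ z³ + c₄ z⁴ + c₅ z⁵`. -/
def Jet (g : ℂ → ℂ) (c2 c3 c4 c5 : ℂ) : Prop :=
  R g (fun z => z + c2*z^2 + c3*z^3 + c4*z^4 + c5*z^5)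

/-- Holomorphic and injective on the disc with prescribed 5-jet. -/
structure Good (g : ℂ → ℂ) (c2 c3 c4 c5 : ℂ) : Prop where
  diff : DifferentiableOn ℂ g (ball (0 : ℂ) 1)
  inj : InjOn g (ball (0 : ℂ) 1)
  jet : Jet g c2 c3 c4 c5

/-- Composition with a Pick map. -/
lemma Good.pick {g : ℂ → ℂ} {c2 c3 c4 c5 : ℂ} (hg : Good g c2 c3 c4 c5)
    {x : ℝ} (h0 : 0 < x) (h1 : x < 1) :
    Good (fun z => (x : ℂ)⁻¹ * g (H915Pick.pick x z))
      ((2-2*x) + c2*x)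
      ((3-8*x+5*x^2) + c2*(4*x-4*x^2) + c3*x^2)
      ((4-20*x+30*x^2-14*x^3) + c2*(10*x-24*x^2+14*x^3) + c3*(6*x^2-6*x^3) + c4*x^3)
      ((5-40*x+105*x^2-112*x^3+42*x^4) + c2*(20*x-84*x^2+112*x^3-48*x^4)
        + c3*(21*x^2-48*x^3+27*x^4) + c4*(8*x^3-8*x^4) + c5*x^4) := by
  have hx : (x : ℂ) ≠ 0 := by exact_mod_cast h0.ne'
  have maps : MapsTo (H915Pick.pick x) (ball (0 : ℂ) 1) (ball (0 : ℂ) 1) := by
    intro z hz
    rw [mem_ball_zero_iff] at hz ⊢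
    exact pick_norm_lt h0 h1 hz
  refine ⟨?_, ?_, ?_⟩
  · exact (hg.diff.comp (pick_diff h0 h1) maps).const_mul _
  · intro z hz w hw h
    have h2 : g (H915Pick.pick x z) = g (H915Pick.pick x w) := by
      have := mul_left_cancel₀ (inv_ne_zero hx) h
      exact this
    exact pick_injOn h0 h1 hz hw (hg.inj (maps hz) (maps hw) h2)
  · obtain ⟨h, hh, he⟩ := hg.jet
    have hp := pick_analyticAt h0 h1
    have hp0 : H915Pick.pick x 0 = 0 := pick_zero x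
    have hc : Tendsto (H915Pick.pick x) (𝓝 0) (𝓝 0) := by
      have := hp.continuousAt.tendsto
      rwa [hp0] at this
    have he' := hc.eventually he
    have hh' : AnalyticAt ℂ (fun z => h (H915Pick.pick x z)) 0 := by
      have : AnalyticAt ℂ h (H915Pick.pick x 0) := by rw [hp0]; exact hh
      exact this.comp hp
    -- assemble
    have s1 := (R_pick h0 h1)
    have s2 := (R_p2 h0 h1).cmul c2
    have s3 := (R_p3 h0 h1).cmul c3
    have s4 := (R_p4 h0 h1).cmul c4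
    have s5 := (R_p5 h0 h1).cmul c5
    have s6 : R (fun z => H915Pick.pick x z * H915Pick.pick x z * H915Pick.pick x z
        * H915Pick.pick x z * H915Pick.pick x z * H915Pick.pick x z
        * h (H915Pick.pick x z)) (fun z => (0:ℂ) * h (H915Pick.pick x z)) :=
      (R_p6 h0 h1).mul (R.refl _) analyticAt_const hh'
    have s := ((((((s1.add s2).add s3).add s4).add s5).add s6).cmul ((x : ℂ)⁻¹))
    refine (s.congr_left ?_).trans (R.of_eq (fun _ => 0) analyticAt_const ?_)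
    · filter_upwards [he'] with z hz
      rw [hz]
      ring
    · intro z
      unfold T1 T2 T3 T4 T5
      field_simp
      ring

/-- Rotation. -/
lemma Good.rot {g : ℂ → ℂ} {c2 c3 c4 c5 : ℂ} (hg : Good g c2 c3 c4 c5)
    {r : ℂ} (hr : ‖r‖ = 1) :
    Good (fun z => r⁻¹ * g (r * z)) (c2*r) (c3*r^2) (c4*r^3) (c5*r^4) := by
  have hr0 : r ≠ 0 := by
    intro h; rw [h] at hr; simp at hr
  have maps : MapsTo (fun z => r * z) (ball (0 : ℂ) 1) (ball (0 : ℂ) 1) := by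
    intro z hz
    rw [mem_ball_zero_iff] at hz ⊢
    rw [norm_mul, hr, one_mul]; exact hz
  refine ⟨?_, ?_, ?_⟩
  · exact (hg.diff.comp (by fun_prop) maps).const_mul _
  · intro z hz w hw h
    have h2 : g (r * z) = g (r * w) := mul_left_cancel₀ (inv_ne_zero hr0) h
    exact mul_left_cancel₀ hr0 (hg.inj (maps hz) (maps hw) h2)
  · obtain ⟨h, hh, he⟩ := hg.jet
    have hc : Tendsto (fun z : ℂ => r * z) (𝓝 0) (𝓝 0) := by
      have : ContinuousAt (fun z : ℂ => r * z) 0 := by fun_prop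
      have := this.tendsto
      simpa using this
    have he' := hc.eventually he
    refine ⟨fun z => r^5 * h (r * z), ?_, ?_⟩
    · apply analyticAt_const.mul
      have : AnalyticAt ℂ h (r * 0) := by simpa using hh
      exact this.comp (f := fun z : ℂ => r * z) (by fun_prop)
    · filter_upwards [he'] with z hz
      rw [hz]
      field_simp

/-- The Koebe function. -/
lemma good_koebe : Good (fun z : ℂ => z / (1 - z)^2) 2 3 4 5 := by
  refine ⟨?_, ?_, ?_⟩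
  · intro z hz
    rw [mem_ball_zero_iff] at hz
    apply DifferentiableAt.differentiableWithinAt
    apply DifferentiableAt.div
    · fun_prop
    · fun_prop
    · exact pow_ne_zero 2 (one_sub_ne hz)
  · intro z hz w hw h
    rw [mem_ball_zero_iff] at hz hw
    have e : ∀ z : ℂ, ‖z‖ < 1 → z / (1 - z)^2 = ((cay z)^2 - 1) / 4 := by
      intro z hz
      have := one_sub_ne hz
      unfold cay
      field_simp
      ring
    simp only at h
    rw [e z hz, e w hw] at h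
    have hc : (cay z) ^ 2 = (cay w) ^ 2 := by linear_combination 4 * h
    rcases sq_eq_sq_iff_eq_or_eq_neg.mp hc with h | h
    · exact cay_inj hz hw h
    · exfalso
      have hz' := cay_re_pos hz
      have hw' := cay_re_pos hw
      rw [h] at hz'
      simp at hz'
      linarith
  · refine ⟨fun z => (6 - 5*z)/(1-z)^2, ?_, ?_⟩
    · apply AnalyticAt.div
      · fun_prop
      · fun_prop
      · simp
    · filter_upwards [ball_ev] with z hz
      have := one_sub_ne hz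
      field_simp
      ring

/-! ### Extracting Taylor coefficients -/

lemma iteratedDeriv_pow_mul (k : ℕ) : ∀ (m : ℕ), k < m → ∀ h : ℂ → ℂ, AnalyticAt ℂ h 0 →
    iteratedDeriv k (fun z => z ^ m * h z) 0 = 0 := by
  induction k with
  | zero =>
    intro m hm h _
    simp [iteratedDeriv_zero, zero_pow (by omega : m ≠ 0)]
  | succ k ih =>
    intro m hm h hh
    obtain ⟨m', rfl⟩ : ∃ m', m = m' + 1 := ⟨m - 1, by omega⟩
    rw [iteratedDeriv_succ']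
    have e : deriv (fun z : ℂ => z ^ (m'+1) * h z) =ᶠ[𝓝 0]
        fun z => z ^ m' * (((m' : ℂ)+1) * h z + z * deriv h z) := by
      filter_upwards [hh.eventually_analyticAt] with z hz
      have := hz.differentiableAt
      rw [deriv_fun_mul (by fun_prop) this]
      simp
      ring
    rw [e.iteratedDeriv_eq]
    apply ih m' (by omega)
    exact (analyticAt_const.mul hh).add (analyticAt_id.mul hh.deriv)

lemma iteratedDeriv_monomial (k m : ℕ) : iteratedDeriv k (fun z : ℂ => z ^ m) 0 =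
    (∏ i ∈ Finset.range k, ((m : ℂ) - i)) * 0 ^ (m - k) := by
  rw [iteratedDeriv_eq_iterate, iter_deriv_pow]

lemma Jet.coeff {g : ℂ → ℂ} {c2 c3 c4 c5 : ℂ} (hg : Jet g c2 c3 c4 c5) (k : ℕ) (hk : k < 6) :
    iteratedDeriv k g 0 = iteratedDeriv k (fun z : ℂ => z ^ 1) 0
      + c2 * iteratedDeriv k (fun z : ℂ => z ^ 2) 0
      + c3 * iteratedDeriv k (fun z : ℂ => z ^ 3) 0
      + c4 * iteratedDeriv k (fun z : ℂ => z ^ 4) 0
      + c5 * iteratedDeriv k (fun z : ℂ => z ^ 5) 0 := by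
  obtain ⟨h, hh, he⟩ := hg
  have e : g =ᶠ[𝓝 0] fun z => (((((z^1 + c2*z^2) + c3*z^3) + c4*z^4) + c5*z^5) + z^6*h z) := by
    filter_upwards [he] with z hz
    rw [hz]; ring
  rw [e.iteratedDeriv_eq]
  have c6 : ContDiffAt ℂ k (fun z : ℂ => z^6*h z) 0 :=
    ((analyticAt_id.pow 6).mul hh).contDiffAt
  rw [iteratedDeriv_fun_add (by fun_prop) c6, iteratedDeriv_fun_add (by fun_prop) (by fun_prop),
    iteratedDeriv_fun_add (by fun_prop) (by fun_prop),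
    iteratedDeriv_fun_add (by fun_prop) (by fun_prop),
    iteratedDeriv_fun_add (by fun_prop) (by fun_prop),
    iteratedDeriv_pow_mul k 6 hk h hh]
  rw [iteratedDeriv_const_mul_field, iteratedDeriv_const_mul_field, iteratedDeriv_const_mul_field,
    iteratedDeriv_const_mul_field]
  ring

lemma Jet.coeff_one {g : ℂ → ℂ} {c2 c3 c4 c5 : ℂ} (hg : Jet g c2 c3 c4 c5) :
    iteratedDeriv 1 g 0 = 1 := by
  rw [hg.coeff 1 (by norm_num)]
  simp only [iteratedDeriv_monomial]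
  simp

lemma Jet.coeff_three {g : ℂ → ℂ} {c2 c3 c4 c5 : ℂ} (hg : Jet g c2 c3 c4 c5) :
    iteratedDeriv 3 g 0 = 6 * c3 := by
  rw [hg.coeff 3 (by norm_num)]
  simp only [iteratedDeriv_monomial]
  simp [Finset.prod_range_succ]
  ring

lemma Jet.coeff_five {g : ℂ → ℂ} {c2 c3 c4 c5 : ℂ} (hg : Jet g c2 c3 c4 c5) :
    iteratedDeriv 5 g 0 = 120 * c5 := by
  rw [hg.coeff 5 (by norm_num)]
  simp only [iteratedDeriv_monomial]
  simp [Finset.prod_range_succ]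
  ring

lemma Jet.zero {g : ℂ → ℂ} {c2 c3 c4 c5 : ℂ} (hg : Jet g c2 c3 c4 c5) : g 0 = 0 := by
  obtain ⟨h, _, he⟩ := hg
  have := he.self_of_nhds
  simpa using this

end Pool.Agent.H915Pick
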