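import Pool.Agent.H915R3.Disc

set_option autoImplicit false

open Filter Topology Set Metric
open scoped Manifold

namespace Pool.Agent.H915R3.Sphere

open Pool.Agent.H915R3.Disc

/-- membership in the polynomial hull, as in the frozen statement -/
def Hull (E : Set (Fin 2 → ℂ)) (z : Fin 2 → ℂ) : Prop :=
  ∀ p : MvPolynomial (Fin 2) ℂ, ∀ c : ℝ,
    (∀ w ∈ E, ‖MvPolynomial.eval w p‖ ≤ c) → ‖MvPolynomial.eval z p‖ ≤ c

/-- the round sphere in `ℂ × ℝ ⊆ ℂ²` -/
def OnS (w : Fin 2 → ℂ) : Prop := (w 1).im = 0 ∧ ‖w 0‖ ^ 2 + (w 1).re ^ 2 = 1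

/-- Fibre lemma. -/
lemma fibre (E : Set (Fin 2 → ℂ)) (hE : IsCompact E) (hS : ∀ w ∈ E, OnS w) (z : Fin 2 → ℂ)
    (hz : Hull E z) (t : ℝ) (ht : z 1 = t) (ht1 : |t| ≤ 1) (q : Polynomial ℂ)
    (hq : ∀ w ∈ E, w 1 = t → ‖q.eval (w 0)‖ < 1) : ‖q.eval (z 0)‖ ≤ 1 := by
  -- the polynomial
  set Q : MvPolynomial (Fin 2) ℂ := Polynomial.aeval (MvPolynomial.X 0) q with hQ
  set L : MvPolynomial (Fin 2) ℂ :=
    1 - MvPolynomial.C (1/4) * (MvPolynomial.X 1 - MvPolynomial.C (t:ℂ)) ^ 2 with hL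
  have eQ : ∀ w : Fin 2 → ℂ, MvPolynomial.eval w Q = q.eval (w 0) := by
    intro w
    rw [hQ, Polynomial.aeval_def, Polynomial.hom_eval₂, Polynomial.eval]
    congr 1
    · ext x; simp
    · simp
  have eL : ∀ w : Fin 2 → ℂ, MvPolynomial.eval w L = 1 - 1/4 * (w 1 - t) ^ 2 := by
    intro w
    simp [hL]
  have eL' : ∀ w : Fin 2 → ℂ, OnS w →
      MvPolynomial.eval w L = ((1 - 1/4 * ((w 1).re - t) ^ 2 : ℝ) : ℂ) := by
    intro w hw
    rw [eL]
    have : w 1 = ((w 1).re : ℂ) := by
      apply Complex.ext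
      · simp
      · simp [hw.1]
    rw [this]; push_cast; simp
  have hre : ∀ w : Fin 2 → ℂ, OnS w → |(w 1).re| ≤ 1 := by
    intro w hw
    rw [abs_le_one_iff_mul_self_le_one]
    nlinarith [hw.2, sq_nonneg ‖w 0‖]
  have hLr : ∀ w : Fin 2 → ℂ, OnS w → 0 ≤ 1 - 1/4 * ((w 1).re - t) ^ 2 ∧
      1 - 1/4 * ((w 1).re - t) ^ 2 ≤ 1 := by
    intro w hw
    have h1 := abs_le.1 (hre w hw)
    have h2 := abs_le.1 ht1
    constructor
    · nlinarith
    · nlinarith [sq_nonneg ((w 1).re - t)]
  have hLn : ∀ w : Fin 2 → ℂ, OnS w →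
      ‖MvPolynomial.eval w L‖ = 1 - 1/4 * ((w 1).re - t) ^ 2 := by
    intro w hw
    rw [eL' w hw, Complex.norm_real, Real.norm_of_nonneg (hLr w hw).1]
  -- bound on Q
  have hcont : Continuous fun w : Fin 2 → ℂ => ‖MvPolynomial.eval w Q‖ :=
    (MvPolynomial.continuous_eval Q).norm
  have hcontL : Continuous fun w : Fin 2 → ℂ => ‖MvPolynomial.eval w L‖ :=
    (MvPolynomial.continuous_eval L).norm
  obtain ⟨M, hM⟩ := (hE.image hcont).bddAbove
  have hM' : ∀ w ∈ E, ‖MvPolynomial.eval w Q‖ ≤ M := fun w hw => hM ⟨w, hw, rfl⟩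
  set E' := E ∩ {w | 1 ≤ ‖MvPolynomial.eval w Q‖} with hE'
  have hE'c : IsCompact E' := hE.inter_right (isClosed_le continuous_const hcont)
  obtain ⟨η, hη0, hη1, hη⟩ : ∃ η : ℝ, 0 ≤ η ∧ η < 1 ∧ ∀ w ∈ E', ‖MvPolynomial.eval w L‖ ≤ η := by
    rcases E'.eq_empty_or_nonempty with h | h
    · exact ⟨0, le_rfl, one_pos, by rw [h]; simp⟩
    · obtain ⟨w0, hw0, hmax⟩ := hE'c.exists_isMaxOn h hcontL.continuousOn
      refine ⟨‖MvPolynomial.eval w0 L‖, norm_nonneg _, ?_, fun w hw => hmax hw⟩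
      have hw0S := hS w0 hw0.1
      rw [hLn w0 hw0S]
      have hne : (w0 1).re ≠ t := by
        intro h
        have h1 : w0 1 = t := by
          apply Complex.ext
          · simpa using h
          · simpa using hw0S.1
        have h2 := hq w0 hw0.1 h1
        have h3 : 1 ≤ ‖MvPolynomial.eval w0 Q‖ := hw0.2
        rw [eQ] at h3
        linarith
      have : 0 < ((w0 1).re - t) ^ 2 := by
        have := sub_ne_zero.2 hne
        positivity
      linarith
  obtain ⟨k, hk⟩ : ∃ k : ℕ, M * η ^ k ≤ 1 := by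
    have h1 : Tendsto (fun k : ℕ => M * η ^ k) atTop (𝓝 (M * 0)) :=
      (tendsto_pow_atTop_nhds_zero_of_lt_one hη0 hη1).const_mul M
    rw [mul_zero] at h1
    obtain ⟨k, hk⟩ := (h1.eventually (gt_mem_nhds one_pos)).exists
    exact ⟨k, hk.le⟩
  have key := hz (Q * L ^ k) 1 (by
    intro w hw
    rw [map_mul, map_pow, norm_mul, norm_pow]
    by_cases h : 1 ≤ ‖MvPolynomial.eval w Q‖
    · have h1 := hη w ⟨hw, h⟩
      calc ‖MvPolynomial.eval w Q‖ * ‖MvPolynomial.eval w L‖ ^ k ≤ M * η ^ k := by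
            gcongr
            · exact (norm_nonneg _).trans (hM' w hw)
            · exact hM' w hw
        _ ≤ 1 := hk
    · push Not at h
      have h1 : ‖MvPolynomial.eval w L‖ ^ k ≤ 1 := by
        apply pow_le_one₀ (norm_nonneg _)
        rw [hLn w (hS w hw)]
        exact (hLr w (hS w hw)).2
      calc ‖MvPolynomial.eval w Q‖ * ‖MvPolynomial.eval w L‖ ^ k ≤ 1 * 1 := by
            gcongr
        _ = 1 := one_mul 1)
  rw [map_mul, map_pow, eL, eQ, ht] at key
  simpa using key

/-- hull points have real second coordinate -/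
lemma im_zero (E : Set (Fin 2 → ℂ)) (hS : ∀ w ∈ E, OnS w) (z : Fin 2 → ℂ)
    (hz : Hull E z) : (z 1).im = 0 ∧ |(z 1).re| ≤ 1 := by
  have hsq : ∀ w : Fin 2 → ℂ, OnS w → (w 1).re ^ 2 ≤ 1 := by
    intro w hw
    nlinarith [hw.2, sq_nonneg ‖w 0‖]
  have key : ∀ K : ℝ, (z 1).re ^ 2 + ((z 1).im + K) ^ 2 ≤ 1 + K ^ 2 := by
    intro K
    have h1 := hz (MvPolynomial.X 1 + MvPolynomial.C (K * Complex.I)) (Real.sqrt (1 + K ^ 2)) (by
      intro w hw
      have hw' := hS w hw
      rw [map_add, MvPolynomial.eval_X, MvPolynomial.eval_C]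
      apply Real.le_sqrt_of_sq_le
      rw [← Complex.normSq_eq_norm_sq, Complex.normSq_apply]
      simp only [Complex.add_re, Complex.add_im, Complex.mul_re, Complex.mul_im, Complex.I_re,
        Complex.I_im, Complex.ofReal_re, Complex.ofReal_im]
      rw [hw'.1]
      nlinarith [hsq w hw'])
    rw [map_add, MvPolynomial.eval_X, MvPolynomial.eval_C] at h1
    have h2 : ‖z 1 + K * Complex.I‖ ^ 2 ≤ 1 + K ^ 2 := by
      have := pow_le_pow_left₀ (norm_nonneg _) h1 2
      rwa [Real.sq_sqrt (by positivity)] at this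
    rw [← Complex.normSq_eq_norm_sq, Complex.normSq_apply] at h2
    simp only [Complex.add_re, Complex.add_im, Complex.mul_re, Complex.mul_im, Complex.I_re,
        Complex.I_im, Complex.ofReal_re, Complex.ofReal_im] at h2
    nlinarith
  have him : (z 1).im = 0 := by
    by_contra h
    have h1 := key (1 / (z 1).im)
    have h2 : ((z 1).im + 1 / (z 1).im) ^ 2 = (z 1).im ^ 2 + 2 + (1 / (z 1).im) ^ 2 := by
      field_simp; ring
    rw [h2] at h1
    nlinarith [sq_nonneg (z 1).im, sq_nonneg (z 1).re]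
  refine ⟨him, ?_⟩
  have h1 := key 0
  rw [him] at h1
  rw [abs_le_one_iff_mul_self_le_one]
  nlinarith

/-- the dichotomy -/
theorem dichotomy (E : Set (Fin 2 → ℂ)) (hE : IsCompact E) (hS : ∀ w ∈ E, OnS w) (z : Fin 2 → ℂ)
    (hz : Hull E z) (hzE : z ∉ E) : ∃ g : ℂ → (Fin 2 → ℂ),
      DifferentiableOn ℂ g (Metric.ball (0 : ℂ) 1) ∧
      (∀ ζ ∈ Metric.ball (0 : ℂ) 1, Hull E (g ζ) ∧ g ζ ∉ E) ∧
      ¬ ∃ c : Fin 2 → ℂ, ∀ ζ ∈ Metric.ball (0 : ℂ) 1, g ζ = c := by
  obtain ⟨him, hre⟩ := im_zero E hS z hz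
  set t : ℝ := (z 1).re with htdef
  have hzt : z 1 = t := by
    apply Complex.ext
    · simp [htdef]
    · simpa using him
  have h1t : 0 ≤ 1 - t ^ 2 := by
    have := (sq_le_one_iff_abs_le_one t).2 hre
    linarith
  set ρ : ℝ := Real.sqrt (1 - t ^ 2) with hρdef
  have hρ0 : 0 ≤ ρ := Real.sqrt_nonneg _
  have hρ2 : ρ ^ 2 = 1 - t ^ 2 := Real.sq_sqrt h1t
  -- fibre points
  have hfib : ∀ w ∈ E, w 1 = t → ‖w 0‖ = ρ := by
    intro w hw hwt
    have h := (hS w hw).2
    rw [hwt, Complex.ofReal_re] at h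
    rw [← abs_of_nonneg (norm_nonneg (w 0)), ← abs_of_nonneg hρ0]
    apply (sq_eq_sq_iff_abs_eq_abs _ _).1
    rw [hρ2]; linarith
  have hF := fibre E hE hS z hz t hzt hre
  -- bound
  have hz0 : ‖z 0‖ ≤ ρ := by
    by_contra hcon
    push Not at hcon
    have hpos : 0 < ρ + ‖z 0‖ := by linarith
    have := hF (Polynomial.C ((2 / (ρ + ‖z 0‖) : ℝ) : ℂ) * Polynomial.X) (by
      intro w hw hwt
      rw [Polynomial.eval_mul, Polynomial.eval_C, Polynomial.eval_X, norm_mul, Complex.norm_real,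
        Real.norm_of_nonneg (by positivity), hfib w hw hwt, div_mul_eq_mul_div, div_lt_one hpos]
      linarith)
    rw [Polynomial.eval_mul, Polynomial.eval_C, Polynomial.eval_X, norm_mul, Complex.norm_real,
        Real.norm_of_nonneg (by positivity), div_mul_eq_mul_div, div_le_one hpos] at this
    linarith
  by_cases hfull : ∀ b : ℂ, ‖b‖ = ρ → (![b, (t:ℂ)] : Fin 2 → ℂ) ∈ E
  · -- full circle
    have hρpos : 0 < ρ := by
      rcases hρ0.lt_or_eq with h | h
      · exact h
      · exfalso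
        apply hzE
        have h0 : z 0 = 0 := by
          rw [← norm_le_zero_iff]; rw [← h] at hz0; exact hz0
        have : z = ![0, (t:ℂ)] := by
          funext i; fin_cases i
          · simpa using h0
          · simpa using hzt
        rw [this]
        apply hfull
        rw [norm_zero, h]
    refine ⟨fun ζ => ![(ρ:ℂ) * ζ, (t:ℂ)], ?_, ?_, ?_⟩
    · rw [differentiableOn_pi]
      intro i
      fin_cases i
      · simp; fun_prop
      · simp
    · intro ζ hζ
      rw [mem_ball_zero_iff] at hζ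
      constructor
      · intro p c hc
        -- maximum principle
        have hd : Differentiable ℂ fun ξ : ℂ => MvPolynomial.eval (![(ρ:ℂ) * ξ, (t:ℂ)]) p := by
          have h1 : Differentiable ℂ fun w : Fin 2 → ℂ => MvPolynomial.eval w p := by
            have : (fun w : Fin 2 → ℂ => MvPolynomial.eval w p) =
              fun w => ∑ d ∈ p.support, p.coeff d * ∏ i, w i ^ d i := by
              funext w; rw [MvPolynomial.eval_eq']
            rw [this]
            fun_prop
          have h2 : Differentiable ℂ fun ξ : ℂ => (![(ρ:ℂ) * ξ, (t:ℂ)] : Fin 2 → ℂ) := by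
            rw [differentiable_pi]
            intro i
            fin_cases i
            · simp; fun_prop
            · simp
          exact h1.comp h2
        have hb := Complex.norm_le_of_forall_mem_frontier_norm_le (U := ball (0:ℂ) 1)
          isBounded_ball hd.diffContOnCl (C := c) (by
            intro ξ hξ
            rw [frontier_ball (0:ℂ) one_ne_zero, mem_sphere_zero_iff_norm] at hξ
            apply hc
            apply hfull
            rw [norm_mul, hξ, Complex.norm_real, Real.norm_of_nonneg hρ0, mul_one])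
          (z := ζ) (subset_closure (by rwa [mem_ball_zero_iff]))
        exact hb
      · intro hmem
        have := (hS _ hmem).2
        simp only [Matrix.cons_val_zero, Matrix.cons_val_one, norm_mul, Complex.norm_real,
          Real.norm_of_nonneg hρ0, Complex.ofReal_re] at this
        have h3 : (ρ * ‖ζ‖) ^ 2 < ρ ^ 2 := by
          apply pow_lt_pow_left₀ _ (by positivity) (by norm_num)
          nlinarith
        nlinarith
    · rintro ⟨c, hc⟩
      have h1 := hc 0 (by simp)
      have h2 := hc (1/2) (by rw [mem_ball_zero_iff]; norm_num)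
      rw [← h1] at h2
      have := congrFun h2 0
      simp at this
      exact hρpos.ne' this
  · -- missing point
    exfalso
    push Not at hfull
    obtain ⟨b0, hb0, hb0E⟩ := hfull
    obtain ⟨b, hb, hbE, hzb⟩ : ∃ b : ℂ, ‖b‖ = ρ ∧ (![b, (t:ℂ)] : Fin 2 → ℂ) ∉ E ∧
        (‖z 0‖ < ρ ∨ z 0 = b) := by
      rcases hz0.lt_or_eq with h | h
      · exact ⟨b0, hb0, hb0E, Or.inl h⟩
      · refine ⟨z 0, h, ?_, Or.inr rfl⟩
        have : (![z 0, (t:ℂ)] : Fin 2 → ℂ) = z := by
          funext i; fin_cases i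
          · rfl
          · simpa using hzt.symm
        rwa [this]
    set K : Set ℂ := {w | (![w, (t:ℂ)] : Fin 2 → ℂ) ∈ E} with hK
    have hKcl : IsClosed K := by
      have : Continuous fun w : ℂ => (![w, (t:ℂ)] : Fin 2 → ℂ) := by
        apply continuous_pi
        intro i
        fin_cases i
        · simpa using continuous_id'
        · simpa using continuous_const
      exact hE.isClosed.preimage this
    have hKn : ∀ w ∈ K, ‖w‖ = ρ := fun w hw => hfib _ hw rfl
    have hmemK : ∀ w ∈ E, w 1 = t → w 0 ∈ K := by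
      intro w hw hwt
      have : (![w 0, (t:ℂ)] : Fin 2 → ℂ) = w := by
        funext i; fin_cases i
        · rfl
        · simpa using hwt.symm
      show (![w 0, (t:ℂ)] : Fin 2 → ℂ) ∈ E
      rwa [this]
    obtain ⟨δ, hδ, hδK⟩ : ∃ δ > 0, ∀ w ∈ K, δ ≤ ‖b - w‖ := by
      have : Kᶜ ∈ 𝓝 b := hKcl.isOpen_compl.mem_nhds hbE
      obtain ⟨δ, hδ, h⟩ := Metric.mem_nhds_iff.1 this
      refine ⟨δ, hδ, fun w hw => ?_⟩
      by_contra hcon
      push Not at hcon
      exact h (by rw [mem_ball, dist_eq_norm, norm_sub_rev]; exact hcon) hw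
    rcases hρ0.lt_or_eq with hρpos | hρz
    · obtain ⟨q, hq1, hq2⟩ := separate ρ δ hρpos hδ K b (z 0) hb
        (fun w hw => ⟨hKn w hw, hδK w hw⟩) hzb
      have := hF q (fun w hw hwt => hq1 _ (hmemK w hw hwt))
      linarith
    · have hb' : b = 0 := by rw [← norm_eq_zero, hb, ← hρz]
      have := hF (Polynomial.C 2) (by
        intro w hw hwt
        exfalso
        have h1 := hfib w hw hwt
        rw [← hρz, norm_eq_zero] at h1
        have h2 := hmemK w hw hwt
        rw [h1, ← hb'] at h2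
        exact hbE h2)
      rw [Polynomial.eval_C] at this
      norm_num at this

/-- the real linear injection `ℝ³ → ℂ²`, `(x, y, t) ↦ (x + i y, t)` -/
noncomputable def Lm : EuclideanSpace ℝ (Fin 3) →L[ℝ] (Fin 2 → ℂ) :=
  LinearMap.toContinuousLinearMap
    { toFun := fun x => ![(x 0 : ℂ) + (x 1 : ℂ) * Complex.I, (x 2 : ℂ)]
      map_add' := by
        intro x y
        funext i
        fin_cases i
        · simp; ring
        · simp
      map_smul' := by
        intro c x
        funext i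
        fin_cases i
        · simp; ring
        · simp }

lemma Lm_zero (x : EuclideanSpace ℝ (Fin 3)) : Lm x 0 = (x 0 : ℂ) + (x 1 : ℂ) * Complex.I := rfl
lemma Lm_one (x : EuclideanSpace ℝ (Fin 3)) : Lm x 1 = (x 2 : ℂ) := rfl

lemma Lm_inj : Function.Injective Lm := by
  intro x y h
  have h0 := congrFun h 0
  have h1 := congrFun h 1
  rw [Lm_zero, Lm_zero] at h0
  rw [Lm_one, Lm_one] at h1
  have a0 := congrArg Complex.re h0
  have a1 := congrArg Complex.im h0
  have a2 := congrArg Complex.re h1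
  simp at a0 a1 a2
  ext i
  fin_cases i
  · exact a0
  · exact a1
  · exact a2

lemma Lm_onS (x : EuclideanSpace ℝ (Fin 3)) (hx : ‖x‖ = 1) : OnS (Lm x) := by
  constructor
  · rw [Lm_one]; simp
  · rw [Lm_zero, Lm_one, ← Complex.normSq_eq_norm_sq, Complex.normSq_apply]
    have h := EuclideanSpace.norm_sq_eq x
    rw [hx, Fin.sum_univ_three] at h
    simp only [Real.norm_eq_abs, sq_abs] at h
    simp
    nlinarith

end Pool.Agent.H915R3.Sphere
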